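import Pool.Agent.H62.AV.Orb

/-!
# The octahedral two-sphere of measures on `S²` invariant under the three sign changes
-/

namespace Pool.Agent.H62.AV

open Pool.Agent.H73.Avr hiding cl
open Pool.Agent.H71.AV

private theorem three (i : Fin 3) : i = 0 ∨ i = 1 ∨ i = 2 := by
  revert i
  decide

private theorem six (i : Fin 6) : i = 0 ∨ i = 1 ∨ i = 2 ∨ i = 3 ∨ i = 4 ∨ i = 5 := by
  revert i
  decide

private theorem e_aux (r : ℝ) :
    Real.cos (r / 2) ^ 2 + Real.sin (r / 2) ^ 2 + (0 : ℝ) ^ 2 = 1 := by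
  have h := Real.sin_sq_add_cos_sq (r / 2)
  linarith

private theorem e_aux1 (r : ℝ) :
    (0 : ℝ) ^ 2 + Real.cos (r / 2) ^ 2 + Real.sin (r / 2) ^ 2 = 1 := by
  have h := Real.sin_sq_add_cos_sq (r / 2)
  linarith

private theorem e_aux2 (r : ℝ) :
    Real.sin (r / 2) ^ 2 + (0 : ℝ) ^ 2 + Real.cos (r / 2) ^ 2 = 1 := by
  have h := Real.sin_sq_add_cos_sq (r / 2)
  linarith

/-- the points of the axes -/
noncomputable def ax : Fin 3 → Sph 2
  | 0 => pt3 1 0 0 (by norm_num)
  | 1 => pt3 0 1 0 (by norm_num)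
  | 2 => pt3 0 0 1 (by norm_num)

/-- the points with exactly one vanishing coordinate -/
noncomputable def pp (r : ℝ) : Fin 3 → Sph 2
  | 0 => pt3 (Real.cos (r / 2)) (Real.sin (r / 2)) 0 (e_aux r)
  | 1 => pt3 0 (Real.cos (r / 2)) (Real.sin (r / 2)) (e_aux1 r)
  | 2 => pt3 (Real.sin (r / 2)) 0 (Real.cos (r / 2)) (e_aux2 r)

/-- the six base points -/
noncomputable def bq (r : ℝ) : Fin 6 → Sph 2
  | 0 => ax 0
  | 1 => ax 1
  | 2 => ax 2
  | 3 => pp r 0
  | 4 => pp r 1
  | 5 => pp r 2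

/-- the six weights -/
noncomputable def lw (a b c : ℝ) : Fin 6 → ℝ
  | 0 => max a 0
  | 1 => max b 0
  | 2 => max c 0
  | 3 => max (-a) 0
  | 4 => max (-b) 0
  | 5 => max (-c) 0

private theorem max_sum (a : ℝ) : max a 0 + max (-a) 0 = |a| := by
  rcases le_total 0 a with h | h
  · rw [max_eq_left h, max_eq_right (by linarith), abs_of_nonneg h, add_zero]
  · rw [max_eq_right h, max_eq_left (by linarith), abs_of_nonpos h, zero_add]

private theorem max_excl {a : ℝ} (h : max a 0 ≠ 0) (h' : max (-a) 0 ≠ 0) : False := by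
  rcases le_total 0 a with h1 | h1
  · exact h' (max_eq_right (by linarith))
  · exact h (max_eq_right h1)

private theorem lw_nonneg (a b c : ℝ) (i : Fin 6) : 0 ≤ lw a b c i := by
  rcases six i with rfl | rfl | rfl | rfl | rfl | rfl <;> exact le_max_right _ _

private theorem lw_sum {a b c : ℝ} (h : |a| + |b| + |c| = 1) : ∑ i, lw a b c i = 1 := by
  rw [Fin.sum_univ_six]
  show max a 0 + max b 0 + max c 0 + max (-a) 0 + max (-b) 0 + max (-c) 0 = 1
  rw [← h, ← max_sum a, ← max_sum b, ← max_sum c]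
  ring

private theorem trig {r : ℝ} (h0 : 0 < r) (h1 : r ≤ Real.pi / 3) :
    1 / 2 ≤ Real.cos r ∧ 0 ≤ Real.sin (r / 2) ∧ 0 ≤ Real.cos (r / 2) ∧ Real.cos (r / 2) ≤ 1 ∧
      Real.sin (r / 2) ^ 2 = (1 - Real.cos r) / 2 ∧ Real.cos (r / 2) ^ 2 = (1 + Real.cos r) / 2 ∧
      Real.sin (r / 2) ≤ Real.cos r := by
  have hpi := Real.pi_pos
  have hc : 1 / 2 ≤ Real.cos r := by
    rw [← Real.cos_pi_div_three]
    exact Real.cos_le_cos_of_nonneg_of_le_pi h0.le (by linarith) h1
  have hs := Real.sin_nonneg_of_nonneg_of_le_pi (x := r / 2) (by linarith) (by linarith)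
  have hcc := Real.cos_nonneg_of_neg_pi_div_two_le_of_le (x := r / 2) (by linarith) (by linarith)
  have h2 := Real.cos_sq (r / 2)
  rw [mul_div_cancel₀ r (two_ne_zero)] at h2
  have h3 := Real.sin_sq_add_cos_sq (r / 2)
  have h4 : Real.sin (r / 2) ^ 2 = (1 - Real.cos r) / 2 := by linarith
  have h5 : Real.cos (r / 2) ^ 2 = (1 + Real.cos r) / 2 := by linarith
  refine ⟨hc, hs, hcc, Real.cos_le_one _, h4, h5, ?_⟩
  nlinarith

private theorem bq_self {r : ℝ} (h0 : 0 < r) (h1 : r ≤ Real.pi / 3) (i : Fin 6) (k : Fin 3) :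
    (bq r i).1 k = 0 ∨ (1 - Real.cos r) / 2 ≤ (bq r i).1 k ^ 2 := by
  obtain ⟨hc, hs, hcc, hcc1, h4, h5, h6⟩ := trig h0 h1
  have hone : (1 - Real.cos r) / 2 ≤ (1 : ℝ) ^ 2 := by linarith
  rcases six i with rfl | rfl | rfl | rfl | rfl | rfl <;> rcases three k with rfl | rfl | rfl
  · right; exact hone
  · left; rfl
  · left; rfl
  · left; rfl
  · right; exact hone
  · left; rfl
  · left; rfl
  · left; rfl
  · right; exact hone
  · right
    show _ ≤ Real.cos (r / 2) ^ 2
    rw [h5]; linarith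
  · right
    show _ ≤ Real.sin (r / 2) ^ 2
    rw [h4]
  · left; rfl
  · left; rfl
  · right
    show _ ≤ Real.cos (r / 2) ^ 2
    rw [h5]; linarith
  · right
    show _ ≤ Real.sin (r / 2) ^ 2
    rw [h4]
  · right
    show _ ≤ Real.sin (r / 2) ^ 2
    rw [h4]
  · left; rfl
  · right
    show _ ≤ Real.cos (r / 2) ^ 2
    rw [h5]; linarith

/-- the sum of the absolute values of the products of the coordinates -/
private noncomputable def cr (x y : Sph 2) : ℝ :=
  |x.1 0| * |y.1 0| + |x.1 1| * |y.1 1| + |x.1 2| * |y.1 2|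

private theorem cr_comm (x y : Sph 2) : cr x y = cr y x := by
  unfold cr
  ring

private theorem cr_pt3 (a b c a' b' c' : ℝ) (h) (h') :
    cr (pt3 a b c h) (pt3 a' b' c' h') = |a| * |a'| + |b| * |b'| + |c| * |c'| := rfl

private theorem cr_bq {r : ℝ} (h0 : 0 < r) (h1 : r ≤ Real.pi / 3) {i j : Fin 6}
    (hij : i < j) (hn : ¬ (j.val = i.val + 3)) : cr (bq r i) (bq r j) ≤ Real.cos r := by
  obtain ⟨hc, hs, hcc, hcc1, h4, h5, h6⟩ := trig h0 h1
  have hsc : Real.sin (r / 2) * Real.cos (r / 2) ≤ Real.cos r := by nlinarith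
  have ea : |Real.sin (r / 2)| = Real.sin (r / 2) := abs_of_nonneg hs
  have eb : |Real.cos (r / 2)| = Real.cos (r / 2) := abs_of_nonneg hcc
  rcases six i with rfl | rfl | rfl | rfl | rfl | rfl <;>
    rcases six j with rfl | rfl | rfl | rfl | rfl | rfl <;>
    first
    | exact absurd hij (by decide)
    | exact absurd rfl hn
    | (simp only [bq, ax, pp, cr_pt3, ea, eb, abs_one, abs_zero]
       linarith)

/-- the measure of a point of the octahedron -/
noncomputable def mkOct {r : ℝ} (h0 : 0 < r) (h1 : r ≤ Real.pi / 3) (a b c : ℝ)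
    (h : |a| + |b| + |c| = 1) : AVR (geo 2) r :=
  mkO h0.le (h1.trans (by linarith [Real.pi_pos])) (bq r) (lw a b c) (lw_nonneg a b c) (lw_sum h)
    (bq_self h0 h1) (by
      intro i j hij hi hj
      have hex : ∀ i j : Fin 6, j.val = i.val + 3 → lw a b c i ≠ 0 → lw a b c j ≠ 0 → False := by
        intro i j hv hi hj
        rcases six i with rfl | rfl | rfl | rfl | rfl | rfl <;>
          rcases six j with rfl | rfl | rfl | rfl | rfl | rfl <;>
          first
          | exact absurd hv (by decide)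
          | exact max_excl hi hj
      rcases lt_or_gt_of_ne hij with h2 | h2
      · exact cr_bq h0 h1 h2 (fun h3 => hex i j h3 hi hj)
      · have h4 := cr_bq h0 h1 h2 (fun h3 => hex j i h3 hj hi)
        rw [cr_comm] at h4
        exact h4)

private theorem mkOct_w {r : ℝ} (h0 : 0 < r) (h1 : r ≤ Real.pi / 3) (a b c : ℝ)
    (h : |a| + |b| + |c| = 1) : (mkOct h0 h1 a b c h).w = wO (bq r) (lw a b c) := rfl

/-- the value of an even function on a point of the octahedron -/
noncomputable def octv (f : Sph 2 → ℝ) (r a b c : ℝ) : ℝ :=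
  max a 0 * f (ax 0) + max b 0 * f (ax 1) + max c 0 * f (ax 2) +
    max (-a) 0 * f (pp r 0) + max (-b) 0 * f (pp r 1) + max (-c) 0 * f (pp r 2)

private theorem ri_mkOct {r : ℝ} (h0 : 0 < r) (h1 : r ≤ Real.pi / 3) (a b c : ℝ)
    (h : |a| + |b| + |c| = 1) {f : Sph 2 → ℝ}
    (hf : ∀ j x, f (Pool.Agent.H70.AV.flip j x) = f x) :
    ri f (mkOct h0 h1 a b c h).w = octv f r a b c := by
  rw [mkOct_w, ri_wO (act_even hf), Fin.sum_univ_six]
  rfl

/-! ## The two discs -/

/-- the first coordinate on the square -/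
noncomputable def oa (u v : ℝ) : ℝ := ((2 * cl u - 1) + (2 * cl v - 1)) / 2

/-- the second coordinate on the square -/
noncomputable def ob (u v : ℝ) : ℝ := ((2 * cl u - 1) - (2 * cl v - 1)) / 2

/-- the third coordinate on the square -/
noncomputable def oc (u v : ℝ) : ℝ := 1 - max |2 * cl u - 1| |2 * cl v - 1|

private theorem abs_ab (x y : ℝ) : |(x + y) / 2| + |(x - y) / 2| = max |x| |y| := by
  rcases le_total 0 (x + y) with h1 | h1 <;> rcases le_total 0 (x - y) with h2 | h2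
  · rw [abs_of_nonneg (by linarith), abs_of_nonneg (by linarith)]
    have h3 : 0 ≤ x := by linarith
    rw [max_eq_left, abs_of_nonneg h3]
    · ring
    · rw [abs_of_nonneg h3]
      exact abs_le.2 ⟨by linarith, by linarith⟩
  · rw [abs_of_nonneg (by linarith), abs_of_nonpos (by linarith)]
    have h3 : 0 ≤ y := by linarith
    rw [max_eq_right, abs_of_nonneg h3]
    · ring
    · rw [abs_of_nonneg h3]
      exact abs_le.2 ⟨by linarith, by linarith⟩
  · rw [abs_of_nonpos (by linarith), abs_of_nonneg (by linarith)]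
    have h3 : y ≤ 0 := by linarith
    rw [max_eq_right, abs_of_nonpos h3]
    · ring
    · rw [abs_of_nonpos h3]
      exact abs_le.2 ⟨by linarith, by linarith⟩
  · rw [abs_of_nonpos (by linarith), abs_of_nonpos (by linarith)]
    have h3 : x ≤ 0 := by linarith
    rw [max_eq_left, abs_of_nonpos h3]
    · ring
    · rw [abs_of_nonpos h3]
      exact abs_le.2 ⟨by linarith, by linarith⟩

private theorem cl_abs (t : ℝ) : |2 * cl t - 1| ≤ 1 := by
  have h0 := cl_nonneg t
  have h1 := cl_le_one t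
  exact abs_le.2 ⟨by linarith, by linarith⟩

private theorem oc_nonneg (u v : ℝ) : 0 ≤ oc u v := by
  have h := max_le (cl_abs u) (cl_abs v)
  unfold oc
  linarith

private theorem oabc (u v : ℝ) : |oa u v| + |ob u v| + |oc u v| = 1 := by
  rw [abs_of_nonneg (oc_nonneg u v)]
  unfold oa ob oc
  rw [abs_ab]
  ring

private theorem oabc' (u v : ℝ) : |oa u v| + |ob u v| + |-(oc u v)| = 1 := by
  rw [abs_neg]
  exact oabc u v

private theorem oa_cont : Continuous fun p : ℝ × ℝ => oa p.1 p.2 := by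
  have h1 := cl_continuous.comp (continuous_fst (X := ℝ) (Y := ℝ))
  have h2 := cl_continuous.comp (continuous_snd (X := ℝ) (Y := ℝ))
  exact (((continuous_const.mul h1).sub continuous_const).add
    ((continuous_const.mul h2).sub continuous_const)).div_const _

private theorem ob_cont : Continuous fun p : ℝ × ℝ => ob p.1 p.2 := by
  have h1 := cl_continuous.comp (continuous_fst (X := ℝ) (Y := ℝ))
  have h2 := cl_continuous.comp (continuous_snd (X := ℝ) (Y := ℝ))
  exact (((continuous_const.mul h1).sub continuous_const).sub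
    ((continuous_const.mul h2).sub continuous_const)).div_const _

private theorem oc_cont : Continuous fun p : ℝ × ℝ => oc p.1 p.2 := by
  have h1 := cl_continuous.comp (continuous_fst (X := ℝ) (Y := ℝ))
  have h2 := cl_continuous.comp (continuous_snd (X := ℝ) (Y := ℝ))
  exact continuous_const.sub (((continuous_const.mul h1).sub continuous_const).abs.max
    ((continuous_const.mul h2).sub continuous_const).abs)

private theorem mkOct_cont {r : ℝ} (h0 : 0 < r) (h1 : r ≤ Real.pi / 3) {Z : Type}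
    [TopologicalSpace Z] {a b c : Z → ℝ} (ha : Continuous a) (hb : Continuous b)
    (hc : Continuous c) (h : ∀ z, |a z| + |b z| + |c z| = 1) :
    Continuous fun z => mkOct h0 h1 (a z) (b z) (c z) (h z) := by
  refine cont_mkO (fun _ => bq r) (fun z => lw (a z) (b z) (c z)) (fun _ => continuous_const)
    ?_ (fun z i => lw_nonneg _ _ _ i) (fun z => lw_sum (h z)) _ (fun z => rfl)
  intro i
  rcases six i with rfl | rfl | rfl | rfl | rfl | rfl
  · exact ha.max continuous_const
  · exact hb.max continuous_const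
  · exact hc.max continuous_const
  · exact ha.neg.max continuous_const
  · exact hb.neg.max continuous_const
  · exact hc.neg.max continuous_const

private theorem mkOct_ext {r : ℝ} (h0 : 0 < r) (h1 : r ≤ Real.pi / 3) {a b c a' b' c' : ℝ}
    {h : |a| + |b| + |c| = 1} {h' : |a'| + |b'| + |c'| = 1} (ea : a = a') (eb : b = b')
    (ec : c = c') : mkOct h0 h1 a b c h = mkOct h0 h1 a' b' c' h' := by
  subst ea
  subst eb
  subst ec
  rfl

private theorem oc_zero {u v : ℝ} (h : u = 0 ∨ u = 1 ∨ v = 0 ∨ v = 1) : oc u v = 0 := by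
  have hu := cl_abs u
  have hv := cl_abs v
  unfold oc
  rcases h with rfl | rfl | rfl | rfl
  · rw [cl_zero] at hu ⊢
    have e : |2 * (0 : ℝ) - 1| = 1 := by norm_num
    rw [e, max_eq_left hv]
    ring
  · rw [cl_one] at hu ⊢
    have e : |2 * (1 : ℝ) - 1| = 1 := by norm_num
    rw [e, max_eq_left hv]
    ring
  · rw [cl_zero] at hv ⊢
    have e : |2 * (0 : ℝ) - 1| = 1 := by norm_num
    rw [e, max_eq_right hu]
    ring
  · rw [cl_one] at hv ⊢
    have e : |2 * (1 : ℝ) - 1| = 1 := by norm_num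
    rw [e, max_eq_right hu]
    ring

/-- the octahedral sphere as two discs on the square, with the values of all even functions -/
theorem exists_oct {r : ℝ} (h0 : 0 < r) (h1 : r ≤ Real.pi / 3) :
    ∃ U D : ℝ → ℝ → AVR (geo 2) r,
      (Continuous fun p : ℝ × ℝ => U p.1 p.2) ∧ (Continuous fun p : ℝ × ℝ => D p.1 p.2) ∧
      (∀ u v j x, (U u v).w (Pool.Agent.H70.AV.flip j x) = (U u v).w x) ∧
      (∀ u v j x, (D u v).w (Pool.Agent.H70.AV.flip j x) = (D u v).w x) ∧
      (∀ v, U 0 v = D 0 v) ∧ (∀ v, U 1 v = D 1 v) ∧ (∀ u, U u 0 = D u 0) ∧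
      (∀ u, U u 1 = D u 1) ∧
      ∀ f : Sph 2 → ℝ, (∀ j x, f (Pool.Agent.H70.AV.flip j x) = f x) → ∀ u v,
        ri f (U u v).w = octv f r (oa u v) (ob u v) (oc u v) ∧
        ri f (D u v).w = octv f r (oa u v) (ob u v) (-(oc u v)) := by
  refine ⟨fun u v => mkOct h0 h1 (oa u v) (ob u v) (oc u v) (oabc u v),
    fun u v => mkOct h0 h1 (oa u v) (ob u v) (-(oc u v)) (oabc' u v), ?_, ?_, ?_, ?_, ?_, ?_,
    ?_, ?_, ?_⟩
  · exact mkOct_cont h0 h1 oa_cont ob_cont oc_cont (fun p => oabc p.1 p.2)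
  · exact mkOct_cont h0 h1 oa_cont ob_cont oc_cont.neg (fun p => oabc' p.1 p.2)
  · intro u v j x
    exact wO_flip j (bq r) (lw (oa u v) (ob u v) (oc u v)) x
  · intro u v j x
    exact wO_flip j (bq r) (lw (oa u v) (ob u v) (-(oc u v))) x
  · intro v
    exact mkOct_ext h0 h1 rfl rfl (by rw [oc_zero (Or.inl rfl), neg_zero])
  · intro v
    exact mkOct_ext h0 h1 rfl rfl (by rw [oc_zero (Or.inr (Or.inl rfl)), neg_zero])
  · intro u
    exact mkOct_ext h0 h1 rfl rfl (by rw [oc_zero (Or.inr (Or.inr (Or.inl rfl))), neg_zero])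
  · intro u
    exact mkOct_ext h0 h1 rfl rfl (by rw [oc_zero (Or.inr (Or.inr (Or.inr rfl))), neg_zero])
  · intro f hf u v
    exact ⟨ri_mkOct h0 h1 _ _ _ _ hf, ri_mkOct h0 h1 _ _ _ _ hf⟩

/-- the octahedral sphere with all sign conditions of the two-sphere criterion, for three even
functions which are diagonal on the six base points -/
theorem exists_oct_signs {r : ℝ} (h0 : 0 < r) (h1 : r ≤ Real.pi / 3) :
    ∃ U D : ℝ → ℝ → AVR (geo 2) r,
      (Continuous fun p : ℝ × ℝ => U p.1 p.2) ∧ (Continuous fun p : ℝ × ℝ => D p.1 p.2) ∧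
      (∀ u v j x, (U u v).w (Pool.Agent.H70.AV.flip j x) = (U u v).w x) ∧
      (∀ u v j x, (D u v).w (Pool.Agent.H70.AV.flip j x) = (D u v).w x) ∧
      (∀ v, U 0 v = D 0 v) ∧ (∀ v, U 1 v = D 1 v) ∧ (∀ u, U u 0 = D u 0) ∧
      (∀ u, U u 1 = D u 1) ∧
      ∀ f : Fin 3 → Sph 2 → ℝ, (∀ k j x, f k (Pool.Agent.H70.AV.flip j x) = f k x) →
        (∀ k j, k ≠ j → f k (ax j) = 0 ∧ f k (pp r j) = 0) →
        (∀ k, 0 ≤ f k (ax k) ∧ f k (pp r k) ≤ 0) →
        (∀ u v, 0 ≤ ri (f 2) (U u v).w) ∧ (∀ u v, ri (f 2) (D u v).w ≤ 0) ∧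
        (∀ v, 0 ≤ ri (f 0) (U 1 v).w) ∧ (∀ v, 0 ≤ ri (f 1) (U 1 v).w) ∧
        (ri (f 0) (U 1 0).w ≤ 0) ∧ (ri (f 1) (U 1 1).w ≤ 0) ∧
        (∀ u, ri (f 1) (U u 1).w ≤ 0) ∧ (∀ v, ri (f 0) (U 0 v).w ≤ 0) ∧
        (∀ u, ri (f 0) (U u 0).w ≤ 0) := by
  obtain ⟨U, D, hU, hD, hUi, hDi, b1, b2, b3, b4, hval⟩ := exists_oct h0 h1
  refine ⟨U, D, hU, hD, hUi, hDi, b1, b2, b3, b4, ?_⟩
  intro f hf hz hs
  have v0 : ∀ a b c, octv (f 0) r a b c =
      max a 0 * f 0 (ax 0) + max (-a) 0 * f 0 (pp r 0) := by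
    intro a b c
    unfold octv
    rw [(hz 0 1 (by decide)).1, (hz 0 2 (by decide)).1, (hz 0 1 (by decide)).2,
      (hz 0 2 (by decide)).2]
    ring
  have v1 : ∀ a b c, octv (f 1) r a b c =
      max b 0 * f 1 (ax 1) + max (-b) 0 * f 1 (pp r 1) := by
    intro a b c
    unfold octv
    rw [(hz 1 0 (by decide)).1, (hz 1 2 (by decide)).1, (hz 1 0 (by decide)).2,
      (hz 1 2 (by decide)).2]
    ring
  have v2 : ∀ a b c, octv (f 2) r a b c =
      max c 0 * f 2 (ax 2) + max (-c) 0 * f 2 (pp r 2) := by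
    intro a b c
    unfold octv
    rw [(hz 2 0 (by decide)).1, (hz 2 1 (by decide)).1, (hz 2 0 (by decide)).2,
      (hz 2 1 (by decide)).2]
    ring
  have pos : ∀ (k : Fin 3) (a : ℝ), 0 ≤ a →
      0 ≤ max a 0 * f k (ax k) + max (-a) 0 * f k (pp r k) := by
    intro k a ha
    rw [max_eq_left ha, max_eq_right (by linarith), zero_mul, add_zero]
    exact mul_nonneg ha (hs k).1
  have neg : ∀ (k : Fin 3) (a : ℝ), a ≤ 0 →
      max a 0 * f k (ax k) + max (-a) 0 * f k (pp r k) ≤ 0 := by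
    intro k a ha
    rw [max_eq_right ha, max_eq_left (by linarith), zero_mul, zero_add]
    exact mul_nonpos_of_nonneg_of_nonpos (by linarith) (hs k).2
  have hU' : ∀ k u v, ri (f k) (U u v).w = octv (f k) r (oa u v) (ob u v) (oc u v) :=
    fun k u v => (hval (f k) (hf k) u v).1
  have hD' : ∀ k u v, ri (f k) (D u v).w = octv (f k) r (oa u v) (ob u v) (-(oc u v)) :=
    fun k u v => (hval (f k) (hf k) u v).2
  refine ⟨?_, ?_, ?_, ?_, ?_, ?_, ?_, ?_, ?_⟩
  · intro u v
    rw [hU', v2]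
    exact pos 2 _ (oc_nonneg u v)
  · intro u v
    rw [hD', v2]
    exact neg 2 _ (by linarith [oc_nonneg u v])
  · intro v
    rw [hU', v0]
    refine pos 0 _ ?_
    unfold oa
    rw [cl_one]
    linarith [cl_nonneg v]
  · intro v
    rw [hU', v1]
    refine pos 1 _ ?_
    unfold ob
    rw [cl_one]
    linarith [cl_le_one v]
  · rw [hU', v0]
    refine neg 0 _ ?_
    unfold oa
    rw [cl_one, cl_zero]
    norm_num
  · rw [hU', v1]
    refine neg 1 _ ?_
    unfold ob
    rw [cl_one]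
    norm_num
  · intro u
    rw [hU', v1]
    refine neg 1 _ ?_
    unfold ob
    rw [cl_one]
    linarith [cl_le_one u]
  · intro v
    rw [hU', v0]
    refine neg 0 _ ?_
    unfold oa
    rw [cl_zero]
    linarith [cl_le_one v]
  · intro u
    rw [hU', v0]
    refine neg 0 _ ?_
    unfold oa
    rw [cl_zero]
    linarith [cl_le_one u]

end Pool.Agent.H62.AV
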