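import Pool.Agent.H71.AV.Paths
import Pool.Agent.H70.AV.Flip

/-!
# Measures on the two-sphere invariant under the three sign changes
-/

namespace Pool.Agent.H62.AV

open Pool.Agent.H73.Avr hiding cl
open Pool.Agent.H71.AV

/-! ## Continuity of families with moving points and moving weights -/

private theorem cont_of_coupling' {Z : Type} [TopologicalSpace Z] {n : ℕ} {r : ℝ}
    (f : Z → AVR (geo n) r) (C : Z → Z → ℝ) (hC : ∀ t, Continuous (C t)) (h0 : ∀ t, C t t = 0)
    (h : ∀ t t', ∃ π, IsCoupling π (f t).w (f t').w ∧ cost (geo n) π ≤ C t t') :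
    Continuous f := by
  refine continuous_def.2 fun V hV => ?_
  rw [isOpen_iff_mem_nhds]
  intro t ht
  obtain ⟨ε, hε, hball⟩ := hV (f t) ht
  have h2 : IsOpen {t' | C t t' < ε} := isOpen_lt (hC t) continuous_const
  have h1 : {t' | C t t' < ε} ∈ nhds t := by
    refine h2.mem_nhds ?_
    show C t t < ε
    rw [h0]
    exact hε
  filter_upwards [h1] with t' ht'
  obtain ⟨π, hπ, hc⟩ := h t t'
  exact hball _ (lt_of_le_of_lt (W1_le geo_nonneg hπ) (lt_of_le_of_lt hc ht'))

private theorem cost_sum {X ι : Type} (d : X → X → ℝ) (s : Finset ι) (f : ι → (X × X) →₀ ℝ) :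
    cost d (∑ i ∈ s, f i) = ∑ i ∈ s, cost d (f i) := by
  classical
  induction s using Finset.induction_on with
  | empty =>
    rw [Finset.sum_empty, Finset.sum_empty]
    unfold cost
    exact Finsupp.sum_zero_index
  | insert a s ha ih => rw [Finset.sum_insert ha, Finset.sum_insert ha, cost_add, ih]

private theorem single_sum' {X ι : Type} (x : X) (s : Finset ι) (f : ι → ℝ) :
    ∑ i ∈ s, Finsupp.single x (f i) = Finsupp.single x (∑ i ∈ s, f i) := by
  classical
  induction s using Finset.induction_on with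
  | empty => simp
  | insert a s ha ih => rw [Finset.sum_insert ha, Finset.sum_insert ha, Finsupp.single_add, ih]

private theorem map_sum' {X Y ι : Type} (f : X → Y) (s : Finset ι) (g : ι → X →₀ ℝ) :
    Finsupp.mapDomain f (∑ i ∈ s, g i) = ∑ i ∈ s, Finsupp.mapDomain f (g i) := by
  classical
  induction s using Finset.induction_on with
  | empty => rw [Finset.sum_empty, Finset.sum_empty, Finsupp.mapDomain_zero]
  | insert a s ha ih =>
    rw [Finset.sum_insert ha, Finset.sum_insert ha, Finsupp.mapDomain_add, ih]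

private theorem coupling_fam {n : ℕ} {ι : Type} [Fintype ι] (x x' : ι → Sph n) (l l' : ι → ℝ)
    (hl : ∀ i, 0 ≤ l i) (hl' : ∀ i, 0 ≤ l' i) (hs : ∑ i, l i = 1) (hs' : ∑ i, l' i = 1) :
    ∃ π, IsCoupling π (∑ i, Finsupp.single (x i) (l i)) (∑ i, Finsupp.single (x' i) (l' i)) ∧
      cost (geo n) π ≤ ∑ i, (l i * geo n (x i) (x' i) + Real.pi * |l i - l' i|) := by
  classical
  set m : ι → ℝ := fun i => min (l i) (l' i) with hm
  have hm0 : ∀ i, 0 ≤ m i := fun i => le_min (hl i) (hl' i)
  have hml : ∀ i, m i ≤ l i := fun i => min_le_left _ _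
  have hml' : ∀ i, m i ≤ l' i := fun i => min_le_right _ _
  set R : ℝ := ∑ i, (l i - m i) with hR
  have hR' : ∑ i, (l' i - m i) = R := by
    rw [hR, Finset.sum_sub_distrib, Finset.sum_sub_distrib, hs, hs']
  have hR0 : 0 ≤ R := Finset.sum_nonneg fun i _ => by linarith [hml i]
  have hz : R = 0 → ∀ i, l i - m i = 0 := by
    intro h i
    exact (Finset.sum_eq_zero_iff_of_nonneg (fun i _ => by linarith [hml i])).1 h i
      (Finset.mem_univ i)
  have hz' : R = 0 → ∀ i, l' i - m i = 0 := by
    intro h i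
    rw [← hR'] at h
    exact (Finset.sum_eq_zero_iff_of_nonneg (fun i _ => by linarith [hml' i])).1 h i
      (Finset.mem_univ i)
  set c : ι → ι → ℝ := fun i j => (l i - m i) * (l' j - m j) / R with hc
  have hc0 : ∀ i j, 0 ≤ c i j := fun i j =>
    div_nonneg (mul_nonneg (by linarith [hml i]) (by linarith [hml' j])) hR0
  have hc1 : ∀ i, ∑ j, c i j = l i - m i := by
    intro i
    simp only [hc]
    rw [← Finset.sum_div, ← Finset.mul_sum, hR']
    rcases eq_or_ne R 0 with h | h
    · rw [hz h i]; simp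
    · field_simp
  have hc2 : ∀ j, ∑ i, c i j = l' j - m j := by
    intro j
    simp only [hc]
    rw [← Finset.sum_div, ← Finset.sum_mul, ← hR]
    rcases eq_or_ne R 0 with h | h
    · rw [hz' h j]; simp
    · field_simp
  refine ⟨∑ i, Finsupp.single (x i, x' i) (m i) +
    ∑ i, ∑ j, Finsupp.single (x i, x' j) (c i j), ⟨?_, ?_, ?_⟩, ?_⟩
  · intro p
    rw [Finsupp.add_apply, Finsupp.finsetSum_apply, Finsupp.finsetSum_apply]
    refine add_nonneg (Finset.sum_nonneg fun i _ => single_nonneg _ _ (hm0 i))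
      (Finset.sum_nonneg fun i _ => ?_)
    rw [Finsupp.finsetSum_apply]
    exact Finset.sum_nonneg fun j _ => single_nonneg _ _ (hc0 i j)
  · rw [Finsupp.mapDomain_add, map_sum', map_sum', ← Finset.sum_add_distrib]
    refine Finset.sum_congr rfl fun i _ => ?_
    rw [Finsupp.mapDomain_single, map_sum']
    simp only [Finsupp.mapDomain_single]
    rw [single_sum', hc1, ← Finsupp.single_add]
    congr 1
    ring
  · rw [Finsupp.mapDomain_add, map_sum', map_sum']
    simp only [map_sum', Finsupp.mapDomain_single]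
    rw [Finset.sum_comm, ← Finset.sum_add_distrib]
    refine Finset.sum_congr rfl fun j _ => ?_
    rw [single_sum', hc2, ← Finsupp.single_add]
    congr 1
    ring
  · rw [cost_add, cost_sum, cost_sum]
    simp only [cost_sum, cost_single]
    rw [Finset.sum_add_distrib]
    refine add_le_add ?_ ?_
    · exact Finset.sum_le_sum fun i _ => mul_le_mul_of_nonneg_right (hml i) (geo_nonneg _ _)
    · have h1 : ∀ i, ∑ j, c i j * geo n (x i) (x' j) ≤ (l i - m i) * Real.pi := by
        intro i
        rw [← hc1 i, Finset.sum_mul]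
        exact Finset.sum_le_sum fun j _ => mul_le_mul_of_nonneg_left (geo_le_pi _ _) (hc0 i j)
      refine Finset.sum_le_sum fun i _ => (h1 i).trans ?_
      rw [mul_comm]
      refine mul_le_mul_of_nonneg_left ?_ Real.pi_pos.le
      rcases le_total (l i) (l' i) with h | h
      · rw [hm]
        show l i - min (l i) (l' i) ≤ _
        rw [min_eq_left h, sub_self]
        exact abs_nonneg _
      · rw [hm]
        show l i - min (l i) (l' i) ≤ _
        rw [min_eq_right h]
        exact le_abs_self _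

/-- families with continuous points and continuous weights are continuous -/
theorem cont_fam' {Z : Type} [TopologicalSpace Z] {n : ℕ} {r : ℝ} {ι : Type} [Fintype ι]
    (x : Z → ι → Sph n) (l : Z → ι → ℝ)
    (hx : ∀ i, Continuous fun t => x t i) (hl : ∀ i, Continuous fun t => l t i)
    (hl0 : ∀ t i, 0 ≤ l t i) (hl1 : ∀ t, ∑ i, l t i = 1) (μ : Z → AVR (geo n) r)
    (hμ : ∀ t, (μ t).w = ∑ i, Finsupp.single (x t i) (l t i)) : Continuous μ := by
  refine cont_of_coupling' μ
    (fun t t' => ∑ i, (l t i * geo n (x t i) (x t' i) + Real.pi * |l t i - l t' i|)) ?_ ?_ ?_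
  · intro t
    refine continuous_finsetSum _ fun i _ => ?_
    refine (continuous_const.mul ?_).add
      (continuous_const.mul (continuous_const.sub (hl i)).abs)
    have h : (fun t' => geo n (x t i) (x t' i)) =
        fun t' => Real.arccos (inner ℝ (x t i).1 (x t' i).1) := funext fun t' => geo_eq_arccos _ _
    rw [h]
    exact Real.continuous_arccos.comp
      (continuous_const.inner (continuous_subtype_val.comp (hx i)))
  · intro t
    refine Finset.sum_eq_zero fun i _ => ?_
    rw [geo_self, sub_self, abs_zero]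
    ring
  · intro t t'
    obtain ⟨π, h1, h2⟩ := coupling_fam (x t) (x t') (l t) (l t') (hl0 t) (hl0 t') (hl1 t) (hl1 t')
    exact ⟨π, by rw [hμ, hμ]; exact h1, h2⟩

/-! ## Orbits of the group of all sign changes -/

private theorem inner3 (x y : Sph 2) :
    inner ℝ x.1 y.1 = x.1 0 * y.1 0 + x.1 1 * y.1 1 + x.1 2 * y.1 2 := by
  rw [PiLp.inner_apply, Fin.sum_univ_three]
  simp only [RCLike.inner_apply, conj_trivial]
  ring

private theorem sum3 (x : Sph 2) : x.1 0 ^ 2 + x.1 1 ^ 2 + x.1 2 ^ 2 = 1 := by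
  have h := Pool.Agent.H70.AV.sum_sq_eq_one x
  rw [Fin.sum_univ_three] at h
  exact h

/-- the change of the signs of the coordinates `i` with `g i` -/
noncomputable def act (g : Fin 3 → Bool) (x : Sph 2) : Sph 2 :=
  ⟨WithLp.toLp 2 (fun i => if g i then -x.1 i else x.1 i), by
    rw [mem_sphere_zero_iff_norm]
    have h1 : ‖(WithLp.toLp 2 (fun i => if g i then -x.1 i else x.1 i) :
        EuclideanSpace ℝ (Fin 3))‖ ^ 2 = 1 := by
      rw [← real_inner_self_eq_norm_sq, PiLp.inner_apply]
      refine Eq.trans ?_ (Pool.Agent.H70.AV.sum_sq_eq_one x)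
      refine Finset.sum_congr rfl fun i _ => ?_
      simp only [RCLike.inner_apply, conj_trivial]
      split_ifs <;> ring
    have h2 := norm_nonneg (WithLp.toLp 2 (fun i => if g i then -x.1 i else x.1 i) :
        EuclideanSpace ℝ (Fin 3))
    nlinarith⟩

theorem act_apply (g : Fin 3 → Bool) (x : Sph 2) (i : Fin 3) :
    (act g x).1 i = if g i then -x.1 i else x.1 i := rfl

theorem act_sq (g : Fin 3 → Bool) (x : Sph 2) (i : Fin 3) : (act g x).1 i ^ 2 = x.1 i ^ 2 := by
  rw [act_apply]
  split_ifs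
  · ring
  · rfl

private theorem act_abs (g : Fin 3 → Bool) (x : Sph 2) (i : Fin 3) :
    |(act g x).1 i| = |x.1 i| := by
  rw [act_apply]
  split_ifs
  · exact abs_neg _
  · rfl

/-- toggle the sign `j` -/
def tog (j : Fin 3) (g : Fin 3 → Bool) : Fin 3 → Bool := Function.update g j (!(g j))

private theorem tog_tog (j : Fin 3) (g : Fin 3 → Bool) : tog j (tog j g) = g := by
  funext i
  unfold tog
  by_cases h : i = j
  · subst h
    simp
  · simp [Function.update_of_ne h]

private theorem flip_act (j : Fin 3) (g : Fin 3 → Bool) (x : Sph 2) :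
    Pool.Agent.H70.AV.flip j (act g x) = act (tog j g) x := by
  apply Subtype.ext
  ext i
  rw [Pool.Agent.H70.AV.flip_apply, act_apply, act_apply]
  unfold tog
  by_cases h : i = j
  · subst h
    rw [if_pos rfl, Function.update_self]
    cases g i <;> simp
  · rw [if_neg h, Function.update_of_ne h]

/-- the equivalence which toggles the sign `j` -/
private def togE (j : Fin 3) : (Fin 3 → Bool) ≃ (Fin 3 → Bool) :=
  ⟨tog j, tog j, tog_tog j, tog_tog j⟩

/-- the measure with the weights `l i` on the orbits of the points `p i` -/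
noncomputable def wO {ι : Type} [Fintype ι] (p : ι → Sph 2) (l : ι → ℝ) : Sph 2 →₀ ℝ :=
  ∑ q : ι × (Fin 3 → Bool), Finsupp.single (act q.2 (p q.1)) (l q.1 / 8)

private theorem card_bool3 : Fintype.card (Fin 3 → Bool) = 8 := by
  simp

private theorem wO_support {ι : Type} [Fintype ι] {p : ι → Sph 2} {l : ι → ℝ} {x : Sph 2}
    (hx : x ∈ (wO p l).support) : ∃ i g, l i ≠ 0 ∧ x = act g (p i) := by
  classical
  by_contra hcon
  push Not at hcon
  rw [Finsupp.mem_support_iff] at hx
  apply hx
  unfold wO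
  rw [Finsupp.finsetSum_apply]
  refine Finset.sum_eq_zero fun q _ => ?_
  by_cases h : l q.1 = 0
  · rw [h, zero_div, Finsupp.single_zero]
    rfl
  · exact Finsupp.single_eq_of_ne (hcon q.1 q.2 h)

private theorem ri_sum' {n : ℕ} {ι : Type} (f : Sph n → ℝ) (s : Finset ι)
    (g : ι → Sph n →₀ ℝ) : ri f (∑ i ∈ s, g i) = ∑ i ∈ s, ri f (g i) := by
  classical
  induction s using Finset.induction_on with
  | empty =>
    rw [Finset.sum_empty, Finset.sum_empty]
    unfold ri
    exact Finsupp.sum_zero_index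
  | insert a s ha ih => rw [Finset.sum_insert ha, Finset.sum_insert ha, ri_add, ih]

theorem ri_wO {ι : Type} [Fintype ι] {f : Sph 2 → ℝ} (hf : ∀ g x, f (act g x) = f x)
    (p : ι → Sph 2) (l : ι → ℝ) : ri f (wO p l) = ∑ i, l i * f (p i) := by
  unfold wO
  rw [ri_sum', Fintype.sum_prod_type]
  refine Finset.sum_congr rfl fun i _ => ?_
  simp only [ri_single, hf]
  rw [Finset.sum_const, Finset.card_univ, card_bool3, nsmul_eq_mul]
  push_cast
  ring

private theorem wO_map {ι : Type} [Fintype ι] (j : Fin 3) (p : ι → Sph 2) (l : ι → ℝ) :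
    (wO p l).mapDomain (Pool.Agent.H70.AV.flip j) = wO p l := by
  unfold wO
  rw [map_sum', Fintype.sum_prod_type, Fintype.sum_prod_type]
  refine Finset.sum_congr rfl fun i _ => ?_
  simp only [Finsupp.mapDomain_single, flip_act]
  exact Fintype.sum_equiv (togE j) _ _ (fun g => rfl)

theorem wO_flip {ι : Type} [Fintype ι] (j : Fin 3) (p : ι → Sph 2) (l : ι → ℝ) (x : Sph 2) :
    wO p l (Pool.Agent.H70.AV.flip j x) = wO p l x := by
  conv_rhs => rw [← wO_map j p l, ← Pool.Agent.H70.AV.flip_flip j x]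
  rw [Finsupp.mapDomain_apply (Pool.Agent.H70.AV.flip_injective j)]

theorem wO_congr {ι : Type} [Fintype ι] {p p' : ι → Sph 2} {l l' : ι → ℝ} (h1 : ∀ i, l i = l' i)
    (h2 : ∀ i, l i = 0 ∨ p i = p' i) : wO p l = wO p' l' := by
  unfold wO
  refine Finset.sum_congr rfl fun q _ => ?_
  rcases h2 q.1 with h | h
  · rw [← h1, h, zero_div, Finsupp.single_zero, Finsupp.single_zero]
  · rw [← h1, h]

private theorem le_geo_of_le_cos {r : ℝ} (h0 : 0 ≤ r) (h1 : r ≤ Real.pi) (x y : Sph 2)
    (h : inner ℝ x.1 y.1 ≤ Real.cos r) : r ≤ geo 2 x y := by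
  rw [geo_eq_arccos]
  have h2 : Real.arccos (Real.cos r) ≤ Real.arccos (inner ℝ x.1 y.1) := Real.arccos_le_arccos h
  rw [Real.arccos_cos h0 h1] at h2
  exact h2

private theorem inner_act_self {c : ℝ} (p : Sph 2)
    (hself : ∀ k, p.1 k = 0 ∨ (1 - c) / 2 ≤ p.1 k ^ 2) (g g' : Fin 3 → Bool)
    (hne : act g p ≠ act g' p) : inner ℝ (act g p).1 (act g' p).1 ≤ c := by
  have hex : ∃ k, (act g p).1 k ≠ (act g' p).1 k := by
    by_contra hcon
    push Not at hcon
    exact hne (Subtype.ext (by ext k; exact hcon k))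
  obtain ⟨k, hk⟩ := hex
  have hk0 : p.1 k ≠ 0 := by
    intro h
    apply hk
    rw [act_apply, act_apply, h]
    simp
  have hks : (act g p).1 k * (act g' p).1 k = -(p.1 k ^ 2) := by
    rw [act_apply, act_apply] at hk ⊢
    by_cases h1 : g k = true <;> by_cases h2 : g' k = true
    · simp [h1, h2] at hk
    · simp [h1, h2]
      ring
    · simp [h1, h2]
      ring
    · simp [h1, h2] at hk
  have hle : ∀ i, (act g p).1 i * (act g' p).1 i ≤ p.1 i ^ 2 := by
    intro i
    have h3 : (act g p).1 i * (act g' p).1 i ≤ |(act g p).1 i| * |(act g' p).1 i| := by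
      rw [← abs_mul]
      exact le_abs_self _
    rw [act_abs, act_abs, ← sq, sq_abs] at h3
    exact h3
  have hs := sum3 p
  have hq := (hself k).resolve_left hk0
  rw [inner3]
  have hc : k = 0 ∨ k = 1 ∨ k = 2 := by
    clear hks hk hk0 hq
    revert k
    decide
  have e0 := hle 0
  have e1 := hle 1
  have e2 := hle 2
  rcases hc with rfl | rfl | rfl <;> linarith

private theorem inner_act_cross {c : ℝ} (p q : Sph 2)
    (h : |p.1 0| * |q.1 0| + |p.1 1| * |q.1 1| + |p.1 2| * |q.1 2| ≤ c) (g g' : Fin 3 → Bool) :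
    inner ℝ (act g p).1 (act g' q).1 ≤ c := by
  have hle : ∀ i, (act g p).1 i * (act g' q).1 i ≤ |p.1 i| * |q.1 i| := by
    intro i
    rw [← act_abs g p i, ← act_abs g' q i, ← abs_mul]
    exact le_abs_self _
  rw [inner3]
  linarith [hle 0, hle 1, hle 2]

/-- a combination of orbits as a member of the thickening -/
noncomputable def mkO {ι : Type} [Fintype ι] {r : ℝ} (hr0 : 0 ≤ r) (hr1 : r ≤ Real.pi)
    (p : ι → Sph 2) (l : ι → ℝ) (h0 : ∀ i, 0 ≤ l i) (h1 : ∑ i, l i = 1)
    (hself : ∀ i k, (p i).1 k = 0 ∨ (1 - Real.cos r) / 2 ≤ (p i).1 k ^ 2)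
    (hcross : ∀ i j, i ≠ j → l i ≠ 0 → l j ≠ 0 →
      |(p i).1 0| * |(p j).1 0| + |(p i).1 1| * |(p j).1 1| + |(p i).1 2| * |(p j).1 2| ≤
        Real.cos r) :
    AVR (geo 2) r where
  w := wO p l
  nonneg := by
    intro x
    unfold wO
    rw [Finsupp.finsetSum_apply]
    exact Finset.sum_nonneg fun q _ => single_nonneg _ _ (div_nonneg (h0 _) (by norm_num))
  total := by
    have h := ri_wO (f := fun _ => 1) (fun _ _ => rfl) p l
    unfold ri at h
    simp only [mul_one] at h
    rw [h, h1]
  spread := by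
    intro x hx y hy hxy
    obtain ⟨i, v, hi, rfl⟩ := wO_support hx
    obtain ⟨j, v', hj, rfl⟩ := wO_support hy
    refine le_geo_of_le_cos hr0 hr1 _ _ ?_
    by_cases hij : i = j
    · subst hij
      exact inner_act_self (p i) (hself i) v v' hxy
    · exact inner_act_cross (p i) (p j) (hcross i j hij hi hj) v v'

/-! ## The points -/

/-- the point with three given coordinates -/
noncomputable def pt3 (a b c : ℝ) (h : a ^ 2 + b ^ 2 + c ^ 2 = 1) : Sph 2 :=
  ⟨WithLp.toLp 2 ![a, b, c], by
    rw [mem_sphere_zero_iff_norm]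
    have h1 : ‖(WithLp.toLp 2 ![a, b, c] : EuclideanSpace ℝ (Fin 3))‖ ^ 2 = 1 := by
      rw [← real_inner_self_eq_norm_sq, PiLp.inner_apply, Fin.sum_univ_three]
      simp only [RCLike.inner_apply, conj_trivial]
      rw [← h]
      simp
      ring
    have h2 := norm_nonneg (WithLp.toLp 2 ![a, b, c] : EuclideanSpace ℝ (Fin 3))
    nlinarith⟩

theorem pt3_cont {Z : Type} [TopologicalSpace Z] {a b c : Z → ℝ}
    (h : ∀ t, a t ^ 2 + b t ^ 2 + c t ^ 2 = 1)
    (ha : Continuous a) (hb : Continuous b) (hc : Continuous c) :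
    Continuous fun t => pt3 (a t) (b t) (c t) (h t) := by
  refine Continuous.subtype_mk ?_ _
  refine (PiLp.continuous_toLp 2 _).comp ?_
  refine continuous_pi fun i => ?_
  fin_cases i
  · exact ha
  · exact hb
  · exact hc

theorem act_cont (g : Fin 3 → Bool) : Continuous (act g) := by
  refine Continuous.subtype_mk ?_ _
  refine (PiLp.continuous_toLp 2 _).comp ?_
  refine continuous_pi fun i => ?_
  have hi : Continuous fun x : Sph 2 => x.1 i := by fun_prop
  cases g i
  · simp only [Bool.false_eq_true, if_false]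
    exact hi
  · simp only [if_true]
    exact hi.neg


private noncomputable def fl (b : Bool) (j : Fin 3) (x : Sph 2) : Sph 2 :=
  if b then Pool.Agent.H70.AV.flip j x else x

private theorem fl_apply (b : Bool) (j : Fin 3) (x : Sph 2) (i : Fin 3) :
    (fl b j x).1 i = if i = j ∧ b = true then -x.1 i else x.1 i := by
  cases b
  · simp [fl]
  · simp only [fl, if_true, and_true]
    rw [Pool.Agent.H70.AV.flip_apply]

private theorem act_eq (g : Fin 3 → Bool) (x : Sph 2) :
    act g x = fl (g 0) 0 (fl (g 1) 1 (fl (g 2) 2 x)) := by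
  apply Subtype.ext
  ext i
  have hi : i = 0 ∨ i = 1 ∨ i = 2 := by
    revert i
    decide
  rw [act_apply, fl_apply, fl_apply, fl_apply]
  rcases hi with rfl | rfl | rfl
  · simp
  · simp
  · simp

theorem act_even {f : Sph 2 → ℝ} (hf : ∀ j x, f (Pool.Agent.H70.AV.flip j x) = f x)
    (g : Fin 3 → Bool) (x : Sph 2) : f (act g x) = f x := by
  have h : ∀ b j x, f (fl b j x) = f x := by
    intro b j x
    cases b
    · rfl
    · exact hf j x
  rw [act_eq, h, h, h]

/-- continuity of families of combinations of orbits -/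
theorem cont_mkO {Z : Type} [TopologicalSpace Z] {ι : Type} [Fintype ι] {r : ℝ}
    (p : Z → ι → Sph 2) (l : Z → ι → ℝ) (hp : ∀ i, Continuous fun t => p t i)
    (hl : ∀ i, Continuous fun t => l t i) (hl0 : ∀ t i, 0 ≤ l t i) (hl1 : ∀ t, ∑ i, l t i = 1)
    (μ : Z → AVR (geo 2) r) (hμ : ∀ t, (μ t).w = wO (p t) (l t)) : Continuous μ := by
  refine cont_fam' (ι := ι × (Fin 3 → Bool)) (fun t q => act q.2 (p t q.1))
    (fun t q => l t q.1 / 8) ?_ ?_ ?_ ?_ μ (fun t => hμ t)
  · intro q
    exact (act_cont q.2).comp (hp q.1)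
  · intro q
    exact (hl q.1).div_const _
  · intro t q
    exact div_nonneg (hl0 t q.1) (by norm_num)
  · intro t
    rw [Fintype.sum_prod_type, ← hl1 t]
    refine Finset.sum_congr rfl fun i _ => ?_
    show ∑ _y : Fin 3 → Bool, l t i / 8 = l t i
    rw [Finset.sum_const, Finset.card_univ, card_bool3, nsmul_eq_mul]
    push_cast
    ring

end Pool.Agent.H62.AV
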